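import Pool.Agent.H97.HV.Targets
import Pool.Agent.H89.HDA.HMI

/-!
# Row NMF (MP_e37c09_lc, HOD(V_ γ)): facts on the normal measures of HOD(V_ γ)
-/

open Ordinal Cardinal Order Set
open scoped ZFSet

universe u

namespace Pool.Agent.H11.HV

open _root_.HD HD.PRK HD.HV
open Pool.Agent.H89.HDA.HMI (G mem_G pair_mem_G hod_G func_G os_sub ne_dr)

/-- sets in HOD are in HOD(V_ γ) -/
theorem nv_of_hod (h : T_PVA.{u}) {γ : Ordinal.{u}} (hγ : 0 < γ) (x : ZFSet.{u}) :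
    HOD x → NV γ x := by
  induction x using ZFSet.inductionOn with
  | _ x ih =>
    intro hx
    rw [NV, ZFSet.hereditarily_iff]
    exact ⟨h.1 γ x hγ (hod_iff.1 hx).1, fun y hy => ih y hy ((hod_iff.1 hx).2 y hy)⟩

theorem nv_upair (h : T_PVA.{u}) {γ : Ordinal.{u}} (hγ : IsSuccLimit γ) {x y : ZFSet.{u}}
    (hx : NV γ x) (hy : NV γ y) : NV γ {x, y} := by
  rw [NV, ZFSet.hereditarily_iff]
  refine ⟨h.2.2.1 γ hγ x y _ hx.self hy.self ?_, ?_⟩
  · refine Pool.Agent.H45.NF.ODp.of_dz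
      (Q := fun v => ∃ a b, v 1 = ZFSet.pair a b ∧ ∀ z, (z ∈ v 0 ↔ z = a ∨ z = b)) ?_ ?_
    · refine DZ.ex (R := fun a v => ∃ b, v 1 = ZFSet.pair a b ∧
        ∀ z, (z ∈ v 0 ↔ z = a ∨ z = b)) ?_
      refine DZ.ex (R := fun b v => v 2 = ZFSet.pair (v 0) b ∧
        ∀ z, (z ∈ v 1 ↔ z = v 0 ∨ z = b)) ?_
      refine DZ.and (loc_pair 3 1 0).dz ?_
      refine DZ.all (R := fun z v => (z ∈ v 2 ↔ z = v 1 ∨ z = v 0)) ?_
      exact (DZ.mem 0 3).iff ((DZ.eq 0 2).or (DZ.eq 0 1))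
    · intro w
      constructor
      · rintro ⟨a, b, h1, h2⟩
        obtain ⟨rfl, rfl⟩ := ZFSet.pair_injective h1
        ext z
        rw [ZFSet.mem_pair]
        exact h2 z
      · rintro rfl
        exact ⟨x, y, rfl, fun z => ZFSet.mem_pair⟩
  · intro z hz
    rcases ZFSet.mem_pair.1 hz with rfl | rfl
    · exact hx
    · exact hy

theorem nv_pair (h : T_PVA.{u}) {γ : Ordinal.{u}} (hγ : IsSuccLimit γ) {x y : ZFSet.{u}}
    (hx : NV γ x) (hy : NV γ y) : NV γ (ZFSet.pair x y) := by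
  unfold ZFSet.pair
  refine nv_upair h hγ ?_ (nv_upair h hγ hx hy)
  have := nv_upair h hγ hx hx
  rwa [ZFSet.pair_eq_singleton] at this

/-- completeness -/
theorem cpl {γ κ : Ordinal.{u}} {U : ZFSet.{u}} (hA : T_PVA.{u}) (hγ : 0 < γ)
    (h : NMeas (NV γ) κ U) {τ : Ordinal.{u}} (hτ : τ < κ)
    {R : Ordinal.{u} → Ordinal.{u} → Prop} (hR : DR R) (h1 : ∀ a < τ, os κ {b | R a b} ∈ U) :
    os κ {b | ∀ a < τ, R a b} ∈ U := by
  have h2 := h.compl τ hτ (G τ κ R) (nv_of_hod hA hγ _ (hod_G hR τ κ)) (func_G h1)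
  have e : (κ.toZFSet).sep (fun b => ∀ a x, ZFSet.pair a x ∈ G τ κ R → b ∈ x) =
      os κ {b | ∀ a < τ, R a b} := by
    ext z
    rw [ZFSet.mem_sep, mem_os]
    constructor
    · rintro ⟨hz, h3⟩
      obtain ⟨b, hb, rfl⟩ := mem_toZFSet_iff.1 hz
      refine ⟨b, hb, fun a ha => ?_, rfl⟩
      exact (ord_mem_os.1 (h3 _ _ (pair_mem_G.2 ⟨a, ha, rfl, rfl⟩))).2
    · rintro ⟨b, hb, h3, rfl⟩
      refine ⟨toZFSet_mem_toZFSet_iff.2 hb, fun a x hx => ?_⟩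
      obtain ⟨a', ha', rfl, rfl⟩ := pair_mem_G.1 hx
      exact ord_mem_os.2 ⟨hb, h3 a' ha'⟩
  rwa [e] at h2

/-- the intersection of two elements -/
theorem inter {γ κ : Ordinal.{u}} {U : ZFSet.{u}} (hA : T_PVA.{u}) (hγ : IsSuccLimit γ)
    (h : NMeas (NV γ) κ U) (hκ : 2 < κ) {x y : ZFSet.{u}} (hx : x ∈ U) (hy : y ∈ U) :
    x ∩ y ∈ U := by
  have hγ0 : 0 < γ := hγ.bot_lt
  have h01 : (0 : Ordinal.{u}) ≠ 1 := zero_ne_one
  have hNx : NV γ x := h.inN.mem hx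
  have hNy : NV γ y := h.inN.mem hy
  have hmem : ∀ a z : ZFSet.{u}, ZFSet.pair a z ∈
      ({ZFSet.pair (0 : Ordinal.{u}).toZFSet x, ZFSet.pair (1 : Ordinal.{u}).toZFSet y} :
        ZFSet.{u}) ↔
      (a = (0 : Ordinal.{u}).toZFSet ∧ z = x) ∨ (a = (1 : Ordinal.{u}).toZFSet ∧ z = y) := by
    intro a z
    rw [ZFSet.mem_pair]
    constructor
    · rintro (h1 | h1)
      · obtain ⟨h2, h3⟩ := ZFSet.pair_injective h1
        exact Or.inl ⟨h2, h3⟩
      · obtain ⟨h2, h3⟩ := ZFSet.pair_injective h1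
        exact Or.inr ⟨h2, h3⟩
    · rintro (⟨rfl, rfl⟩ | ⟨rfl, rfl⟩)
      · exact Or.inl rfl
      · exact Or.inr rfl
  have hN : NV γ ({ZFSet.pair (0 : Ordinal.{u}).toZFSet x,
      ZFSet.pair (1 : Ordinal.{u}).toZFSet y} : ZFSet.{u}) :=
    nv_upair hA hγ (nv_pair hA hγ (nv_of_hod hA hγ0 _ (HOD.ordinal 0)) hNx)
      (nv_pair hA hγ (nv_of_hod hA hγ0 _ (HOD.ordinal 1)) hNy)
  have h2 := h.compl 2 hκ _ hN ?_
  · have e : (κ.toZFSet).sep (fun b => ∀ a z, ZFSet.pair a z ∈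
        ({ZFSet.pair (0 : Ordinal.{u}).toZFSet x, ZFSet.pair (1 : Ordinal.{u}).toZFSet y} :
          ZFSet.{u}) → b ∈ z) = x ∩ y := by
      ext z
      rw [ZFSet.mem_sep, ZFSet.mem_inter]
      constructor
      · rintro ⟨-, h3⟩
        exact ⟨h3 _ _ ((hmem _ _).2 (Or.inl ⟨rfl, rfl⟩)), h3 _ _ ((hmem _ _).2 (Or.inr ⟨rfl, rfl⟩))⟩
      · rintro ⟨h3, h4⟩
        refine ⟨h.sub x hx h3, ?_⟩
        intro a w hw
        rcases (hmem _ _).1 hw with ⟨-, rfl⟩ | ⟨-, rfl⟩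
        · exact h3
        · exact h4
    rwa [e] at h2
  · constructor
    · intro p hp
      rw [ZFSet.mem_pair] at hp
      rcases hp with rfl | rfl
      · exact ZFSet.pair_mem_prod.2 ⟨toZFSet_mem_toZFSet_iff.2 zero_lt_two, hx⟩
      · exact ZFSet.pair_mem_prod.2 ⟨toZFSet_mem_toZFSet_iff.2 one_lt_two, hy⟩
    · intro z hz
      obtain ⟨a, ha, rfl⟩ := mem_toZFSet_iff.1 hz
      have ha2 : a = 0 ∨ a = 1 := by
        have h3 : a < succ 1 := by
          rw [Order.succ_eq_add_one, one_add_one_eq_two]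
          exact ha
        rcases (lt_succ_iff.1 h3).lt_or_eq with h4 | h4
        · exact Or.inl (Ordinal.lt_one_iff_zero.1 h4)
        · exact Or.inr h4
      rcases ha2 with rfl | rfl
      · refine ⟨x, (hmem _ _).2 (Or.inl ⟨rfl, rfl⟩), ?_⟩
        intro w hw
        rcases (hmem _ _).1 hw with ⟨-, h3⟩ | ⟨h3, -⟩
        · exact h3
        · exact absurd (toZFSet_injective h3) h01
      · refine ⟨y, (hmem _ _).2 (Or.inr ⟨rfl, rfl⟩), ?_⟩
        intro w hw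
        rcases (hmem _ _).1 hw with ⟨h3, -⟩ | ⟨-, h3⟩
        · exact absurd (toZFSet_injective h3).symm h01
        · exact h3

theorem pf_NMF (h : T_PVA.{u}) : T_NMF.{u} := by
  intro γ hγ K hK U hU
  have hγ0 : 0 < γ := hγ.bot_lt
  have hω : ω < K.ord := by
    rw [← Cardinal.ord_aleph0]
    exact Cardinal.ord_lt_ord.2 hK
  have h2K : (2 : Ordinal.{u}) < K.ord := (Ordinal.nat_lt_omega0 2).trans hω
  have hint : ∀ x ∈ U, ∀ y ∈ U, x ∩ y ∈ U := fun x hx y hy => inter h hγ hU h2K hx hy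
  refine ⟨hint, ?_⟩
  intro x hx b hb
  by_contra hcon
  have hcon' : ∀ a : Ordinal.{u}, b ≤ a → a < K.ord → a.toZFSet ∉ x := by
    intro a h1 h2 h3
    exact hcon ⟨a, h1, h2, h3⟩
  -- the complements of the points
  have hne : ∀ a < b, os K.ord {c | c ≠ a} ∈ U := by
    intro a ha
    have haK : a < K.ord := ha.trans hb
    have e1 : ({a.toZFSet} : ZFSet.{u}) ⊆ K.ord.toZFSet := by
      intro z hz
      rw [ZFSet.mem_singleton] at hz
      rw [hz]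
      exact toZFSet_mem_toZFSet_iff.2 haK
    have e2 : HOD ({a.toZFSet} : ZFSet.{u}) := by
      have := (HOD.ordinal a).upair (HOD.ordinal a)
      rwa [ZFSet.pair_eq_singleton] at this
    have h1 := hU.ultra _ (nv_of_hod h hγ0 _ e2) e1
    have h2 : K.ord.toZFSet \ {a.toZFSet} ∈ U := by
      by_contra h3
      exact hU.nonpr a haK (h1.2 h3)
    have e3 : K.ord.toZFSet \ {a.toZFSet} = os K.ord {c | c ≠ a} := by
      ext z
      rw [ZFSet.mem_sdiff, mem_os, ZFSet.mem_singleton]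
      constructor
      · rintro ⟨h3, h4⟩
        obtain ⟨c, hc, rfl⟩ := mem_toZFSet_iff.1 h3
        exact ⟨c, hc, fun h5 => h4 (by rw [show c = a from h5]), rfl⟩
      · rintro ⟨c, hc, h3, rfl⟩
        exact ⟨toZFSet_mem_toZFSet_iff.2 hc, fun h4 => h3 (toZFSet_injective h4)⟩
    rwa [e3] at h2
  have h1 := cpl h hγ0 hU hb ne_dr hne
  have h2 := hint x hx _ h1
  have e : x ∩ os K.ord {c | ∀ a < b, c ≠ a} = ∅ := by
    rw [ZFSet.eq_empty]
    intro z hz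
    rw [ZFSet.mem_inter] at hz
    obtain ⟨c, hc, h3, rfl⟩ := mem_os.1 hz.2
    have hbc : b ≤ c := by
      by_contra h4
      exact h3 c (not_le.1 h4) rfl
    exact hcon' c hbc hc hz.1
  rw [e] at h2
  have h3 : K.ord.toZFSet ∈ U := by
    refine hU.up _ h2 _ (nv_of_hod h hγ0 _ (HOD.ordinal _)) ?_ (fun z hz => hz)
    intro z hz
    exact absurd hz (ZFSet.notMem_empty z)
  have h4 := (hU.ultra ∅ (h2 |> hU.inN.mem) (fun z hz => absurd hz (ZFSet.notMem_empty z))).1 h2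
  refine h4 ?_
  have e' : K.ord.toZFSet \ (∅ : ZFSet.{u}) = K.ord.toZFSet := by
    ext z
    rw [ZFSet.mem_sdiff]
    exact ⟨fun h5 => h5.1, fun h5 => ⟨h5, ZFSet.notMem_empty z⟩⟩
  rwa [e']

end Pool.Agent.H11.HV
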